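import Pool.Agent.H8.AV3.Stmts3

/-!
# AV3, stage 2, module EMB3: `E / 3E` embeds into the Selmer group
-/

set_option autoImplicit false

namespace Pool.Agent.H55.AV3B

open Polynomial Matrix Pool.AVR Pool.AV3

theorem emb_two_ne {F : Type} [Field F] (h2 : (2 : F) ≠ 0) : (2 : RatFunc F) ≠ 0 := by
  have : (2 : RatFunc F) = algebraMap F[X] (RatFunc F) 2 := (map_ofNat _ 2).symm
  rw [this]
  intro h
  have h3 := (map_eq_zero_iff _ (RatFunc.algebraMap_injective F)).mp h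
  have h4 : (C (2 : F) : F[X]) = 0 := by rw [← h3]; exact map_ofNat C 2
  exact h2 (by simpa using h4)

theorem emb_three_ne {F : Type} [Field F] (h2 : (3 : F) ≠ 0) : (3 : RatFunc F) ≠ 0 := by
  have : (3 : RatFunc F) = algebraMap F[X] (RatFunc F) 3 := (map_ofNat _ 3).symm
  rw [this]
  intro h
  have h3 := (map_eq_zero_iff _ (RatFunc.algebraMap_injective F)).mp h
  have h4 : (C (3 : F) : F[X]) = 0 := by rw [← h3]; exact map_ofNat C 3
  exact h2 (by simpa using h4)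

theorem emb_am_ofNat {F : Type} [Field F] (k : ℕ) [k.AtLeastTwo] :
    algebraMap F[X] (RatFunc F) (OfNat.ofNat k) = OfNat.ofNat k := map_ofNat _ k

theorem emb_dsc {F : Type} [Field F] {f : F[X] × F[X] × F[X]} (h : dsc f ≠ 0) :
    dsc (AVS.kf f) ≠ 0 := by
  have : dsc (AVS.kf f) = algebraMap F[X] (RatFunc F) (dsc f) := by
    simp only [dsc, disc, AVS.kf, map_add, map_mul, map_pow, map_sub]
    rw [emb_am_ofNat 4, emb_am_ofNat 18, emb_am_ofNat 27]
  rw [this]
  intro h1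
  exact h ((map_eq_zero_iff _ (RatFunc.algebraMap_injective F)).mp h1)

theorem emb_mk_zero {G : Type} [AddCommGroup G] (P Q : G) (h : P = Q + Q + Q) :
    (QuotientAddGroup.mk P : Mod3 G) = 0 := by
  rw [QuotientAddGroup.eq_zero_iff]
  refine ⟨Q, ?_⟩
  rw [h]
  change 3 • Q = Q + Q + Q
  rw [succ_nsmul, two_nsmul]

open Classical in
theorem emb3_thm (hSEC : Pool.AV3.SECStmt) (hCLI : Pool.AV3.CLIStmt) : Pool.AV3.EMB3Stmt := by
  intro F _ _ h2 n f hf hfin
  have hinf : Infinite (RatFunc F) :=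
    Infinite.of_injective _ (RatFunc.algebraMap_injective F)
  have hd : dsc f ≠ 0 := hf.1.2
  obtain ⟨-, -, S3⟩ := hSEC F h2 f
  have hcond : (3 : RatFunc F) ≠ 0 ∨ (AVS.kf f).1 ≠ 0 := by
    rcases hf.2 with h5 | h5
    · exact Or.inl (emb_three_ne h5)
    · exact Or.inr fun h7 => h5 ((map_eq_zero_iff _ (RatFunc.algebraMap_injective F)).mp h7)
  have hsurj : ∀ ξ : Mod3 (EK f), ∃ P : EK f, (QuotientAddGroup.mk P : Mod3 (EK f)) = ξ :=
    fun ξ => QuotientAddGroup.mk_surjective ξ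
  choose rep hrep using hsurj
  let φ : Mod3 (EK f) → Sel3 f := fun ξ =>
    Quotient.mk (selSetoid f) ⟨FQ (f := AVS.kf f) (rep ξ), S3 (rep ξ) hd⟩
  have hinj : Function.Injective φ := by
    intro ξ ξ' h
    have h1 : ∃ g, Eqv g (FQ (f := AVS.kf f) (rep ξ)) (FQ (f := AVS.kf f) (rep ξ')) :=
      Quotient.exact h
    obtain ⟨T, hT⟩ := hCLI (RatFunc F) (emb_two_ne h2) (AVS.kf f) (emb_dsc hd) hcond
      (rep ξ) (rep ξ') h1
    have h3 : (QuotientAddGroup.mk (rep ξ - rep ξ') : Mod3 (EK f)) = 0 :=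
      emb_mk_zero (G := EK f) _ T hT
    rw [QuotientAddGroup.mk_sub, sub_eq_zero, hrep, hrep] at h3
    exact h3
  have hfin' : Finite (Mod3 (EK f)) := Finite.of_injective φ hinj
  exact ⟨hfin', Nat.card_le_card_of_injective φ hinj⟩

end Pool.Agent.H55.AV3B
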