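import Pool.Agent.H8.AV3.Stmts4
import Pool.Agent.H95.AVR.CNF

/-!
# AV3, stage 2, module SUF: summation over the curves
-/

set_option autoImplicit false

namespace Pool.Agent.H55.AV3B

open Polynomial Matrix Pool.AVR Pool.AV3

open Classical in
theorem suf_thm (hJIN : Pool.AV3.JINStmt) (hCNV : Pool.AV3.CNVStmt) : Pool.AV3.SUFStmt := by
  intro F _ _ h2 n α β hα hβ T W hT hW
  have hTf : T.Finite := by
    have : (Fam F n).Finite := by
      rw [h95_fam]
      exact (h95D_finite F _).prod ((h95D_finite F _).prod (h95D_finite F _))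
    exact this.subset hT
  have hVf : (Vd n (dv α β) : Set (Fin 10 → F[X])).Finite := (hCNV F n α β hα hβ).1
  obtain ⟨J1, J2⟩ := hJIN F h2 n
  set U : Set (Fin 10 → F[X]) := {c | c ∈ Vd n (dv α β) ∧ ∃ f ∈ T, c ∈ VJ n (dv α β) f} with hU
  have hUf : U.Finite := hVf.subset fun c hc => hc.1
  have hVJf : ∀ f, (VJ n (dv α β) f : Set (Fin 10 → F[X])).Finite := fun f =>
    hVf.subset fun c hc => hc.1
  have e1 : ∀ f ∈ T, ∑ᶠ c ∈ VJ n (dv α β) f, W c =
      ∑ c ∈ hUf.toFinset, if c ∈ VJ n (dv α β) f then W c else 0 := by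
    intro f hf
    rw [finsum_mem_eq_finite_toFinset_sum _ (hVJf f), ← Finset.sum_filter]
    refine Finset.sum_congr ?_ fun _ _ => rfl
    ext c
    rw [Finset.mem_filter, Set.Finite.mem_toFinset, Set.Finite.mem_toFinset]
    exact ⟨fun h => ⟨⟨h.1, f, hf, h⟩, h⟩, fun h => h.2⟩
  rw [finsum_mem_congr rfl e1, finsum_mem_eq_finite_toFinset_sum _ hTf,
    finsum_mem_eq_finite_toFinset_sum _ hUf, Finset.sum_comm, Finset.mul_sum]
  refine Finset.sum_le_sum fun c hc => ?_
  have hcV : c ∈ Vd n (dv α β) := ((Set.Finite.mem_toFinset _).mp hc).1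
  rw [← Finset.sum_filter, Finset.sum_const, nsmul_eq_mul]
  refine mul_le_mul_of_nonneg_right ?_ (hW c)
  have hD := h95D_finite F (2 * n)
  have hsub : hTf.toFinset.filter (fun f => c ∈ VJ n (dv α β) f) ⊆
      hD.toFinset.image (fun p => sh (-p) (Jc (hf F) c)) := by
    intro f hfm
    obtain ⟨hfT, hc2, p, hp⟩ := Finset.mem_filter.mp hfm
    have hfam : f ∈ Fam F n := hT ((Set.Finite.mem_toFinset _).mp hfT)
    have hJ := (J1 α β c hcV).1
    rw [hp] at hJ
    refine Finset.mem_image.mpr ⟨p, (Set.Finite.mem_toFinset _).mpr (J2 p f hfam hJ).1, ?_⟩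
    rw [hp, sh_sh, neg_add_cancel, sh_zero]
  have h3 : (hTf.toFinset.filter (fun f => c ∈ VJ n (dv α β) f)).card ≤
      Nat.card F ^ (2 * n + 1) := by
    refine (Finset.card_le_card hsub).trans (Finset.card_image_le.trans ?_)
    rw [← h95D_ncard F (2 * n), Set.ncard_eq_toFinset_card _ hD]
  exact_mod_cast h3

end Pool.Agent.H55.AV3B
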